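import Pool.Agent.BSI.Stmts

set_option autoImplicit false

/-! Row DLN: degree and length of the polynomial of any circuit. -/

namespace Pool.Agent.BSI.H16

open MvPolynomial Pool.Agent.Helper78_ACIT

theorem length_eq_sum {f : MvPolynomial ℕ ℤ} {s : Finset (ℕ →₀ ℕ)} (h : f.support ⊆ s) :
    Pool.Agent.UO.length f = ∑ d ∈ s, (f.coeff d).natAbs := by
  unfold Pool.Agent.UO.length
  refine Finset.sum_subset h (fun d _ hd => ?_)
  rw [notMem_support_iff.mp hd]
  rfl

theorem length_le_sum {f : MvPolynomial ℕ ℤ} (s : Finset (ℕ →₀ ℕ)) :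
    (∑ d ∈ s, (f.coeff d).natAbs) ≤ Pool.Agent.UO.length f := by
  classical
  rw [length_eq_sum (f := f) (s := s ∪ f.support) Finset.subset_union_right]
  exact Finset.sum_le_sum_of_subset Finset.subset_union_left

theorem length_zero : Pool.Agent.UO.length 0 = 0 := by
  unfold Pool.Agent.UO.length
  rw [support_zero, Finset.sum_empty]

theorem length_add_le (f g : MvPolynomial ℕ ℤ) :
    Pool.Agent.UO.length (f + g) ≤ Pool.Agent.UO.length f + Pool.Agent.UO.length g := by
  calc Pool.Agent.UO.length (f + g)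
      ≤ ∑ d ∈ (f + g).support, ((f.coeff d).natAbs + (g.coeff d).natAbs) := by
        unfold Pool.Agent.UO.length
        refine Finset.sum_le_sum (fun d _ => ?_)
        rw [coeff_add]
        exact Int.natAbs_add_le _ _
    _ = ∑ d ∈ (f + g).support, (f.coeff d).natAbs + ∑ d ∈ (f + g).support, (g.coeff d).natAbs :=
        Finset.sum_add_distrib
    _ ≤ _ := Nat.add_le_add (length_le_sum _) (length_le_sum _)

theorem length_neg (f : MvPolynomial ℕ ℤ) :
    Pool.Agent.UO.length (-f) = Pool.Agent.UO.length f := by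
  unfold Pool.Agent.UO.length
  rw [support_neg]
  refine Finset.sum_congr rfl (fun d _ => ?_)
  rw [coeff_neg, Int.natAbs_neg]

theorem length_sum_le {ι : Type} (s : Finset ι) (f : ι → MvPolynomial ℕ ℤ) :
    Pool.Agent.UO.length (∑ i ∈ s, f i) ≤ ∑ i ∈ s, Pool.Agent.UO.length (f i) := by
  classical
  induction s using Finset.induction_on with
  | empty =>
    rw [Finset.sum_empty, Finset.sum_empty, length_zero]
  | insert a s ha ih =>
    rw [Finset.sum_insert ha, Finset.sum_insert ha]
    exact (length_add_le _ _).trans (Nat.add_le_add_left ih _)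

theorem length_monomial_le (a : ℕ →₀ ℕ) (c : ℤ) :
    Pool.Agent.UO.length (monomial a c) ≤ c.natAbs := by
  rw [length_eq_sum (f := monomial a c) (s := {a}) support_monomial_subset, Finset.sum_singleton,
    coeff_monomial, if_pos rfl]

theorem length_mul_le (f g : MvPolynomial ℕ ℤ) :
    Pool.Agent.UO.length (f * g) ≤ Pool.Agent.UO.length f * Pool.Agent.UO.length g := by
  have h : f * g = ∑ a ∈ f.support, ∑ b ∈ g.support,
      monomial (a + b) (f.coeff a * g.coeff b) := by
    conv_lhs => rw [← support_sum_monomial_coeff f, ← support_sum_monomial_coeff g]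
    rw [Finset.sum_mul_sum]
    refine Finset.sum_congr rfl (fun a _ => Finset.sum_congr rfl (fun b _ => ?_))
    rw [monomial_mul]
  rw [h]
  refine (length_sum_le _ _).trans ?_
  have h2 : Pool.Agent.UO.length f * Pool.Agent.UO.length g
      = ∑ a ∈ f.support, ∑ b ∈ g.support, (f.coeff a).natAbs * (g.coeff b).natAbs := by
    unfold Pool.Agent.UO.length
    rw [Finset.sum_mul_sum]
  rw [h2]
  refine Finset.sum_le_sum (fun a _ => (length_sum_le _ _).trans ?_)
  refine Finset.sum_le_sum (fun b _ => (length_monomial_le _ _).trans ?_)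
  rw [Int.natAbs_mul]

theorem length_one_le : Pool.Agent.UO.length 1 ≤ 1 := by
  have h : (1 : MvPolynomial ℕ ℤ) = monomial 0 1 := rfl
  rw [h]
  exact length_monomial_le 0 1

theorem length_X_le (j : ℕ) : Pool.Agent.UO.length (X j) ≤ 1 := by
  have h : (X j : MvPolynomial ℕ ℤ) = monomial (Finsupp.single j 1) 1 := rfl
  rw [h]
  exact length_monomial_le _ 1

/-- the invariant -/
def Inv (m : ℕ) (v : MvPolynomial ℕ ℤ) : Prop :=
  v.totalDegree ≤ 2 ^ m ∧ 2 * Pool.Agent.UO.length v ≤ 2 ^ 2 ^ m

theorem two_pp (m : ℕ) : 2 ≤ 2 ^ 2 ^ m := by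
  calc 2 = 2 ^ 1 := (pow_one 2).symm
    _ ≤ 2 ^ 2 ^ m := Nat.pow_le_pow_right (by norm_num) Nat.one_le_two_pow

theorem Inv.zero (m : ℕ) : Inv m 0 := by
  refine ⟨?_, ?_⟩
  · rw [totalDegree_zero]
    exact Nat.zero_le _
  · rw [length_zero, mul_zero]
    exact Nat.zero_le _

theorem Inv.mono {m : ℕ} {v : MvPolynomial ℕ ℤ} (h : Inv m v) : Inv (m + 1) v := by
  refine ⟨h.1.trans (Nat.pow_le_pow_right (by norm_num) (Nat.le_succ m)), h.2.trans ?_⟩
  exact Nat.pow_le_pow_right (by norm_num) (Nat.pow_le_pow_right (by norm_num) (Nat.le_succ m))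

theorem pp_succ (m : ℕ) : 2 ^ 2 ^ (m + 1) = 2 ^ 2 ^ m * 2 ^ 2 ^ m := by
  rw [← pow_add, pow_succ 2 m, mul_two]

theorem Inv.one (m : ℕ) : Inv (m + 1) 1 := by
  refine ⟨?_, ?_⟩
  · rw [totalDegree_one]
    exact Nat.zero_le _
  · have := two_pp (m + 1)
    have := length_one_le
    omega

theorem Inv.var (m j : ℕ) : Inv (m + 1) (X j) := by
  refine ⟨?_, ?_⟩
  · rw [totalDegree_X]
    exact Nat.one_le_two_pow
  · have := two_pp (m + 1)
    have := length_X_le j
    omega

theorem Inv.add {m : ℕ} {v w : MvPolynomial ℕ ℤ} (h : Inv m v) (h' : Inv m w) :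
    Inv (m + 1) (v + w) := by
  refine ⟨(totalDegree_add v w).trans (max_le h.mono.1 h'.mono.1), ?_⟩
  have h1 := length_add_le v w
  have h2 := two_pp m
  have h3 := pp_succ m
  have h4 : 2 * 2 ^ 2 ^ m ≤ 2 ^ 2 ^ m * 2 ^ 2 ^ m := Nat.mul_le_mul_right _ h2
  have h5 := h.2
  have h6 := h'.2
  rw [h3]
  omega

theorem Inv.neg {m : ℕ} {v : MvPolynomial ℕ ℤ} (h : Inv m v) : Inv m (-v) := by
  refine ⟨?_, ?_⟩
  · rw [totalDegree_neg]
    exact h.1
  · rw [length_neg]
    exact h.2

theorem Inv.mul {m : ℕ} {v w : MvPolynomial ℕ ℤ} (h : Inv m v) (h' : Inv m w) :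
    Inv (m + 1) (v * w) := by
  refine ⟨(totalDegree_mul v w).trans ?_, ?_⟩
  · rw [pow_succ, mul_two]
    exact Nat.add_le_add h.1 h'.1
  · have h1 := length_mul_le v w
    rw [pp_succ]
    calc 2 * Pool.Agent.UO.length (v * w)
        ≤ 2 * (Pool.Agent.UO.length v * Pool.Agent.UO.length w) := Nat.mul_le_mul_left 2 h1
      _ ≤ (2 * Pool.Agent.UO.length v) * (2 * Pool.Agent.UO.length w) := by nlinarith
      _ ≤ 2 ^ 2 ^ m * 2 ^ 2 ^ m := Nat.mul_le_mul h.2 h'.2

theorem Inv.getD {m : ℕ} {acc : List (MvPolynomial ℕ ℤ)} (h : ∀ v ∈ acc, Inv m v) (i : ℕ) :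
    Inv m (acc.getD i 0) := by
  rw [List.getD_eq_getElem?_getD]
  cases hc : acc[i]? with
  | none => exact Inv.zero m
  | some v =>
    simp only [Option.getD_some]
    exact h v (List.mem_of_getElem? hc)

theorem inv_value {m : ℕ} {acc : List (MvPolynomial ℕ ℤ)} (h : ∀ v ∈ acc, Inv m v) (g : Gate) :
    Inv (m + 1) (g.value X acc) := by
  cases g with
  | zero => exact Inv.zero _
  | one => exact Inv.one m
  | var j => exact Inv.var m j
  | add a b => exact (Inv.getD h a).add (Inv.getD h b)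
  | sub a b =>
    show Inv (m + 1) (acc.getD a 0 - acc.getD b 0)
    rw [sub_eq_add_neg]
    exact (Inv.getD h a).add (Inv.getD h b).neg
  | mul a b => exact (Inv.getD h a).mul (Inv.getD h b)

theorem inv_run : ∀ (C : List Gate) (acc : List (MvPolynomial ℕ ℤ)) (m : ℕ),
    (∀ v ∈ acc, Inv m v) →
    ∀ v ∈ C.foldl (fun vals g => vals ++ [g.value X vals]) acc, Inv (m + C.length) v := by
  intro C
  induction C with
  | nil =>
    intro acc m h
    exact h
  | cons g C ih =>
    intro acc m h v hv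
    rw [List.foldl_cons] at hv
    have h1 := ih (acc ++ [g.value X acc]) (m + 1) (by
      intro w hw
      rcases List.mem_append.mp hw with hw | hw
      · exact (h w hw).mono
      · rw [List.mem_singleton] at hw
        rw [hw]
        exact inv_value h g) v hv
    rw [List.length_cons]
    have e : m + (C.length + 1) = m + 1 + C.length := by omega
    rw [e]
    exact h1

/-- **Row DLN**. -/
theorem dln : DlnStmt := by
  intro G _
  have h1 : Inv G.length (poly G) := by
    unfold poly out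
    rw [List.getLastD_eq_getLast?]
    cases hc : (values (X : ℕ → MvPolynomial ℕ ℤ) G).getLast? with
    | none => exact Inv.zero _
    | some v =>
      have h2 := inv_run G [] 0 (by intro v hv; cases hv) v (List.mem_of_getLast? hc)
      rw [zero_add] at h2
      exact h2
  refine ⟨h1.1, ?_⟩
  have := h1.2
  omega

end Pool.Agent.BSI.H16
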