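import Pool.Agent.BSI.Stmts
import Pool.Agent.Helper68_BSH.FAM

set_option autoImplicit false

/-! Row FM2: the independent family, with digits. -/

noncomputable section

namespace Pool.Agent.BSI.H16

open MvPolynomial Pool.Agent.BSH Pool.Agent.BSI Pool.Agent.BSH.H68

/-- digits: a power with exponent less than `b ^ c'` -/
theorem digits {E A : Type} [Field E] [CommRing A] [Algebra E A] (W : Submodule E A)
    (h1 : (1 : A) ∈ W) (x : A) (b c : ℕ) (hb : 2 ≤ b) (hx : ∀ j ≤ c, x ^ b ^ j ∈ W) :
    ∀ c' ≤ c + 1, ∀ n < b ^ c', x ^ n ∈ W ^ (c' * (b - 1)) := by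
  intro c'
  induction c' with
  | zero =>
    intro _ n hn
    have : n = 0 := by
      rw [pow_zero] at hn
      omega
    rw [this, pow_zero, zero_mul, pow_zero]
    exact Submodule.one_le.1 le_rfl
  | succ c' ih =>
    intro hc n hn
    have hbc : 0 < b ^ c' := pow_pos (by omega) _
    have e1 : n = b ^ c' * (n / b ^ c') + n % b ^ c' := (Nat.div_add_mod n (b ^ c')).symm
    have h2 : n / b ^ c' ≤ b - 1 := by
      have : n / b ^ c' < b := by
        rw [Nat.div_lt_iff_lt_mul hbc]
        rw [pow_succ] at hn
        rwa [mul_comm] at hn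
      omega
    have h3 := ih (by omega) (n % b ^ c') (Nat.mod_lt n hbc)
    have h4 := pow_mem' W (hx c' (by omega)) (n / b ^ c')
    have h5 := mul_mem' W h4 h3
    rw [← pow_mul, ← pow_add, ← e1] at h5
    refine pow_mono W h1 ?_ h5
    calc n / b ^ c' + c' * (b - 1) ≤ (b - 1) + c' * (b - 1) := Nat.add_le_add_right h2 _
      _ = (c' + 1) * (b - 1) := by ring

theorem fm2 (hLOW : LowStmt) (hIND : IndStmt) : Fm2Stmt := by
  classical
  intro E _ _ k r b c D0 a Φ W hb2 hmin hΦ h0 hW h1 hX hpw hyz
  obtain ⟨d, hd⟩ : ∃ d, d = b ^ (c + 1) + 1 := ⟨_, rfl⟩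
  rw [← hd] at hyz
  have hd1e : d - 1 = b ^ c * b := by rw [hd, Nat.add_sub_cancel, pow_succ]
  have hbc : 0 < b ^ c := pow_pos (by omega) _
  have hd1 : 0 < d - 1 := by
    rw [hd1e]
    exact Nat.mul_pos hbc (by omega)
  obtain ⟨M0, bad, ζ, hbad, hg⟩ := hLOW E k r d a Φ hmin hΦ h0
  set good : Finset ℕ := (Finset.range k).filter fun i => i ∉ bad with hgood
  have hgk : ∀ i ∈ good, i < k := fun i hi => Finset.mem_range.1 (Finset.mem_filter.1 hi).1
  have hgb : ∀ i ∈ good, i ∉ bad := fun i hi => (Finset.mem_filter.1 hi).2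
  have hgsub : good ⊆ Finset.range (k + r) := by
    intro i hi
    exact Finset.mem_range.2 ((hgk i hi).trans_le (Nat.le_add_right k r))
  have hcard : k + 1 - r ≤ good.card := by
    have h2 : (Finset.range k) ⊆ good ∪ bad := by
      intro i hi
      by_cases hb : i ∈ bad
      · exact Finset.mem_union_right _ hb
      · exact Finset.mem_union_left _ (Finset.mem_filter.2 ⟨hi, hb⟩)
    have h3 := (Finset.card_le_card h2).trans (Finset.card_union_le _ _)
    rw [Finset.card_range] at h3
    omega
  set y : ℕ → MvPolynomial ℕ E := yy k r d a Φ with hy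
  set z : ℕ → MvPolynomial ℕ E := zz k r a Φ with hz
  -- the bounds of the exponents
  set N : ℕ → ℕ := fun i =>
    (D0 + 1) * ((if i < k then b ^ c else 1) * if i ∈ good then b else 1) with hN
  set Ω : Finset (ℕ →₀ ℕ) := (Finset.range (k + r)).finsupp fun i => Finset.range (N i) with hΩ
  have hΩcard : Ω.card = (D0 + 1) ^ (k + r) * ((b ^ c) ^ k * b ^ good.card) := by
    rw [hΩ, Finset.card_finsupp]
    simp only [Finset.card_range, hN]
    rw [Finset.prod_mul_distrib, Finset.prod_mul_distrib, Finset.prod_const, Finset.card_range]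
    congr 1
    rw [Finset.prod_ite, Finset.prod_const, Finset.prod_const_one, mul_one, Finset.prod_ite,
      Finset.prod_const, Finset.prod_const_one, mul_one]
    have e1 : (Finset.range (k + r)).filter (fun i => i < k) = Finset.range k := by
      ext i
      rw [Finset.mem_filter, Finset.mem_range, Finset.mem_range]
      omega
    have e2 : (Finset.range (k + r)).filter (fun i => i ∈ good) = good := by
      ext i
      rw [Finset.mem_filter]
      exact ⟨fun h => h.2, fun h => ⟨hgsub h, h⟩⟩
    rw [e1, e2, Finset.card_range]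
  have hΩmem : ∀ β ∈ Ω, β.support ⊆ Finset.range (k + r) ∧ ∀ i < k + r, β i < N i := by
    intro β hβ
    rw [hΩ, Finset.mem_finsupp_iff] at hβ
    exact ⟨hβ.1, fun i hi => Finset.mem_range.1 (hβ.2 i (Finset.mem_range.2 hi))⟩
  have hα : ∀ i ∈ good, ∀ m < N i, m / (d - 1) ≤ D0 := by
    intro i hi m hm
    rw [hN] at hm
    simp only [if_pos hi, if_pos (hgk i hi)] at hm
    rw [← hd1e] at hm
    exact Nat.lt_succ_iff.1 (Nat.div_lt_of_lt_mul (by rwa [mul_comm] at hm))
  set bb : (ℕ →₀ ℕ) → MvPolynomial ℕ E := fun β =>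
    ∏ i ∈ Finset.range (k + r), fac d D0 good y z i (β i) with hbb
  set wt : (ℕ →₀ ℕ) → ℕ := fun β =>
    ∑ i ∈ Finset.range (k + r), if k ≤ i then β i else 0 with hwt
  set cc : (ℕ →₀ ℕ) → E := fun β =>
    ∏ i ∈ Finset.range (k + r), if i ∈ good then (-(d : E)) ^ (β i / (d - 1)) else 1 with hcc
  set Ψ : MvPolynomial ℕ E :=
    ∏ i ∈ Finset.range (k + r), if i ∈ good then ζ i ^ D0 else 1 with hΨ
  have hΨ0 : Ψ ≠ 0 := by
    refine Finset.prod_ne_zero_iff.2 fun i _ => ?_
    split_ifs with hi
    · exact pow_ne_zero _ (hg i (hgk i hi) (hgb i hi)).1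
    · exact one_ne_zero
  have hd0 : (d : E) ≠ 0 := Nat.cast_ne_zero.2 (by omega)
  have hc0 : ∀ β ∈ Ω, cc β ≠ 0 := by
    intro β _
    refine Finset.prod_ne_zero_iff.2 fun i _ => ?_
    split_ifs with hi
    · exact pow_ne_zero _ (neg_ne_zero.2 hd0)
    · exact one_ne_zero
  -- lowest parts of the factors
  have hfac : ∀ i < k + r, ∀ m < N i,
      LP ((if i ∈ good then M0 * D0 else 0) + if k ≤ i then m else 0)
        ((if i ∈ good then ζ i ^ D0 else 1) *
          (C (if i ∈ good then (-(d : E)) ^ (m / (d - 1)) else 1) * X i ^ m))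
        (th E k r (fac d D0 good y z i m)) :=
    fun i hi m hm => fac_lp k r d D0 M0 good y z ζ hgk (fun i hi => (hg i (hgk i hi) (hgb i hi)).2.1)
      (fun i hi => (hg i (hgk i hi) (hgb i hi)).2.2) i hi m fun h => hα i h m hm
  have hΘ : ∀ β ∈ Ω, ∃ Q : Polynomial (MvPolynomial ℕ E), th E k r (bb β) =
      Polynomial.X ^ (good.card * (M0 * D0) + wt β) *
        (Polynomial.C (Ψ * monomial β (cc β)) + Polynomial.X * Q) := by
    intro β hβ
    obtain ⟨hsupp, hlt⟩ := hΩmem β hβ
    have h3 := LP.prod (Finset.range (k + r)) _ _ _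
      fun i hi => hfac i (Finset.mem_range.1 hi) (β i) (hlt i (Finset.mem_range.1 hi))
    rw [← map_prod, Finset.sum_add_distrib, Finset.prod_mul_distrib, Finset.prod_mul_distrib,
      ← map_prod] at h3
    have h4 : ∑ i ∈ Finset.range (k + r), (if i ∈ good then M0 * D0 else 0) =
        good.card * (M0 * D0) := by
      rw [← Finset.sum_filter, Finset.sum_const, smul_eq_mul]
      congr 2
      ext i
      rw [Finset.mem_filter]
      exact ⟨fun h => h.2, fun h => ⟨hgsub h, h⟩⟩
    have h5 : C (cc β) * ∏ i ∈ Finset.range (k + r), (X i : MvPolynomial ℕ E) ^ β i =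
        monomial β (cc β) := by
      rw [monomial_eq, Finsupp.prod_of_support_subset β hsupp _ fun i _ => pow_zero _]
    rw [h4] at h3
    rw [← h5]
    exact h3
  have hLI := hIND E (th E k r) Ω wt (good.card * (M0 * D0)) Ψ cc bb hΨ0 hc0 hΘ
  -- membership
  have hmem : ∀ β ∈ Ω, bb β ∈ W ^ ((k + r) * D0 + k * ((c + 1) * b)) := by
    intro β hβ
    obtain ⟨hsupp, hlt⟩ := hΩmem β hβ
    have h3 := prod_mem' W (Finset.range (k + r))
      (fun i => D0 + if i < k then (c + 1) * b else 0)
      (fun i => fac d D0 good y z i (β i)) (by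
        intro i hi
        have hi' := Finset.mem_range.1 hi
        have hm := hlt i hi'
        show fac d D0 good y z i (β i) ∈ W ^ (D0 + if i < k then (c + 1) * b else 0)
        unfold fac
        have hle1 : (c + 1) * (b - 1) ≤ (c + 1) * b := Nat.mul_le_mul_left _ (Nat.sub_le b 1)
        by_cases hgi : i ∈ good
        · have hik := hgk i hgi
          have hle := hα i hgi _ hm
          rw [if_pos hgi, if_pos hik]
          have hmod : β i % (d - 1) < b ^ (c + 1) := by
            have := Nat.mod_lt (β i) hd1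
            rw [pow_succ, ← hd1e]
            exact this
          have h4 := mul_mem' W (mul_mem' W (pow_mem' W (hyz i hik).2 (β i / (d - 1)))
            (pow_mem' W (hyz i hik).1 (D0 - β i / (d - 1))))
            (digits W h1 (X i) b c hb2 (fun j hj => hpw i hik j hj) (c + 1) le_rfl
              (β i % (d - 1)) hmod)
          refine pow_mono W h1 ?_ h4
          omega
        · rw [if_neg hgi]
          by_cases hik : i < k
          · rw [if_pos hik]
            rw [hN] at hm
            simp only [if_neg hgi, mul_one, if_pos hik] at hm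
            have e1 : β i = b ^ c * (β i / b ^ c) + β i % b ^ c :=
              (Nat.div_add_mod (β i) (b ^ c)).symm
            have h2 : β i / b ^ c ≤ D0 := by
              have : β i / b ^ c < D0 + 1 := by
                rw [Nat.div_lt_iff_lt_mul hbc]
                exact hm
              omega
            have h4 := mul_mem' W (pow_mem' W (hpw i hik c le_rfl) (β i / b ^ c))
              (digits W h1 (X i) b c hb2 (fun j hj => hpw i hik j hj) c (Nat.le_succ c)
                (β i % b ^ c) (Nat.mod_lt _ hbc))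
            rw [← pow_mul, ← pow_add, ← e1] at h4
            refine pow_mono W h1 ?_ h4
            have h5 : c * (b - 1) ≤ (c + 1) * b :=
              Nat.mul_le_mul (Nat.le_succ c) (Nat.sub_le b 1)
            omega
          · rw [if_neg hik]
            rw [hN] at hm
            simp only [if_neg hgi, mul_one, if_neg hik] at hm
            refine pow_mono W h1 ?_ (pow_mem' W (hX i hi') (β i))
            omega)
    refine pow_mono W h1 ?_ h3
    rw [Finset.sum_add_distrib, Finset.sum_const, Finset.card_range, smul_eq_mul,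
      ← Finset.sum_filter, Finset.sum_const, smul_eq_mul]
    refine Nat.add_le_add_left (Nat.mul_le_mul_right _ ?_) _
    have e1 : (Finset.range (k + r)).filter (fun i => i < k) = Finset.range k := by
      ext i
      rw [Finset.mem_filter, Finset.mem_range, Finset.mem_range]
      omega
    rw [e1, Finset.card_range]
  have := finite_pow W hW ((k + r) * D0 + k * ((c + 1) * b))
  have hLI2 : LinearIndependent E (fun β : Ω =>
      (⟨bb β, hmem β β.2⟩ :
        (W ^ ((k + r) * D0 + k * ((c + 1) * b)) : Submodule E (MvPolynomial ℕ E)))) := by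
    refine LinearIndependent.of_comp (Submodule.subtype _) ?_
    exact hLI
  have h6 := hLI2.fintype_card_le_finrank
  rw [Fintype.card_coe, hΩcard] at h6
  refine le_trans (Nat.mul_le_mul_left _ (Nat.mul_le_mul_left _ ?_)) h6
  exact Nat.pow_le_pow_right (by omega) hcard

end Pool.Agent.BSI.H16
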